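import Pool.Agent.Y55.Col.Ind

/-!
Fat points of `ℙ ^ 3` which impose independent conditions: the quadrics through nine of them.
-/

set_option autoImplicit false

namespace Pool.Agent.Y55.Col

open MvPolynomial Finset Pool.Agent.H938R2

lemma choose_diff (d : ℕ) (hd : 2 ≤ d) :
    (d + 3).choose 3 = (d - 2 + 3).choose 3 + (d + 1) ^ 2 := by
  obtain ⟨e, rfl⟩ : ∃ e, d = e + 2 := ⟨d - 2, by omega⟩
  rw [Nat.add_sub_cancel]
  have h1 : (e + 2 + 3).choose 3 = (e + 4).choose 2 + (e + 4).choose 3 := Nat.choose_succ_succ' _ _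
  have h2 : (e + 4).choose 3 = (e + 3).choose 2 + (e + 3).choose 3 := Nat.choose_succ_succ' _ _
  have h3 : (e + 4).choose 2 = (e + 3).choose 1 + (e + 3).choose 2 := Nat.choose_succ_succ' _ _
  have h4 : (e + 3).choose 2 * 2 = (e + 3) * (e + 2) := by
    have := Nat.triangle_succ (e + 2)
    rw [Nat.choose_two_right]
    have h5 : Even ((e + 3) * (e + 3 - 1)) := by
      rw [mul_comm]
      exact Nat.even_mul_succ_self (e + 2)
    have := Nat.div_mul_cancel (even_iff_two_dvd.1 h5)
    rw [this]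
    rfl
  have h6 : (e + 3).choose 1 = e + 3 := Nat.choose_one_right _
  nlinarith

lemma choose_le_of_pos (a : ℕ) : (a + 1).choose 2 ≤ (a + 2).choose 3 := by
  rw [Nat.choose_succ_succ' (a + 1) 2]
  exact Nat.le_add_right _ _

/-- Conditions on the quadrics through the points of `I`. -/
theorem quad {k d : ℕ} {m : Fin k → ℕ} (v : Fin k → Fin 4 → ℂ) (hv : ∀ i, v i ≠ 0)
    (h : Module.finrank ℂ (forms 4 d m v) + ∑ i, (m i + 2).choose 3 = (d + 3).choose 3)
    (I : Finset (Fin k)) (hI : I.card ≤ 9) :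
    ∑ i ∈ I, (m i + 1).choose 2 ≤ (d + 1) ^ 2 := by
  classical
  rcases Nat.lt_or_ge d 2 with hd | hd
  · have h1 : ∑ i ∈ I, (m i + 1).choose 2 ≤ ∑ i, (m i + 2).choose 3 :=
      (Finset.sum_le_sum fun i _ => choose_le_of_pos (m i)).trans
        (Finset.sum_le_sum_of_subset (subset_univ I))
    have h2 : (d + 3).choose 3 = (d + 1) ^ 2 := by
      interval_cases d <;> decide
    omega
  set w : Fin k → ℕ := fun i => if i ∈ I then 1 else 0 with hw
  set m' : Fin k → ℕ := fun i => m i - w i with hm'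
  have hQ := finrank_forms_ge 3 2 w v hv
  have hsum : ∑ i, (w i + 3 - 1).choose 3 = I.card := by
    have h1 : ∀ i, (w i + 3 - 1).choose 3 = if i ∈ I then 1 else 0 := by
      intro i
      show ((if i ∈ I then 1 else 0) + 3 - 1).choose 3 = _
      split_ifs <;> rfl
    rw [Finset.sum_congr rfl fun i _ => h1 i, Finset.sum_ite_mem, Finset.univ_inter,
      Finset.sum_const, smul_eq_mul, mul_one]
  rw [hsum] at hQ
  have h10 : (2 + 3).choose 3 = 10 := rfl
  have hpos : 0 < Module.finrank ℂ (forms (3 + 1) 2 w v) := by omega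
  obtain ⟨Q, hQ0⟩ := Module.finrank_pos_iff_exists_ne_zero.1 hpos
  have hQ1 : (Q : MvPolynomial (Fin 4) ℂ) ≠ 0 := fun h0 => hQ0 (Subtype.ext h0)
  let Φ : forms 4 (d - 2) m' v →ₗ[ℂ] forms 4 d m v :=
    LinearMap.codRestrict _ ((LinearMap.mulLeft ℂ (Q : MvPolynomial (Fin 4) ℂ)) ∘ₗ
      Submodule.subtype _) (fun F => by
        have hF := F.2
        have hQ2 := Q.2
        rw [mem_forms] at hF hQ2 ⊢
        constructor
        · have h1 := hQ2.1.mul hF.1
          have h2 : 2 + (d - 2) = d := by omega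
          rwa [h2] at h1
        · intro i
          refine VanishesToOrder.mono (b := w i + m' i) ?_ ((hQ2.2 i).mul (hF.2 i))
          show m i ≤ w i + (m i - w i)
          omega)
  have hΦ : Function.Injective Φ := by
    intro F G hFG
    have h1 : (Q : MvPolynomial (Fin 4) ℂ) * (F : MvPolynomial (Fin 4) ℂ) = Q * G :=
      congrArg Subtype.val hFG
    exact Subtype.ext (mul_left_cancel₀ hQ1 h1)
  have h3 := LinearMap.finrank_le_finrank_of_injective hΦ
  have h4 := finrank_forms_ge 3 (d - 2) m' v hv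
  have h5 : ∀ i, (m i + 2).choose 3 = (m' i + 3 - 1).choose 3 +
      if i ∈ I then (m i + 1).choose 2 else 0 := by
    intro i
    show _ = (m i - (if i ∈ I then 1 else 0) + 3 - 1).choose 3 + _
    split_ifs with hi
    · rcases Nat.eq_zero_or_pos (m i) with h0 | h0
      · rw [h0]
        rfl
      · have e : m i - 1 + 3 - 1 = m i + 1 := by omega
        rw [e, Nat.choose_succ_succ' (m i + 1) 2, add_comm]
    · rfl
  have h6 : ∑ i, (m i + 2).choose 3 = ∑ i, (m' i + 3 - 1).choose 3 +
      ∑ i ∈ I, (m i + 1).choose 2 := by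
    rw [Finset.sum_congr rfl fun i _ => h5 i, Finset.sum_add_distrib, Finset.sum_ite_mem,
      Finset.univ_inter]
  have h7 := choose_diff d hd
  have h8 : (d - 2 + 3).choose 3 ≤ Module.finrank ℂ (forms 4 (d - 2) m' v) +
    ∑ i, (m' i + 3 - 1).choose 3 := h4
  omega

end Pool.Agent.Y55.Col
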