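import Pool.Agent.TH176.FB.Fat2

/-!
Collisions of fat points: if there is no polynomial of degree less than `D` with multiplicities
`w i` at the points `p i`, and for each `i` there is no polynomial of degree less than `w i` with
multiplicities `m j` at the points `q j` of the `i`-th group, then there is no polynomial of degree
less than `D` with multiplicities `m j` at the points `p i + ε q j` for suitable `ε`.
-/

set_option autoImplicit false

namespace Pool.Agent.Y55.Col

open MvPolynomial Finset Pool.Agent.H938R2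

/-- There is no nonzero polynomial of degree less than `D` with multiplicities `w i` at the points
`p i`. -/
def AffBot {E : ℕ} {ι : Type} (D : ℕ) (w : ι → ℕ) (p : ι → Fin E → ℂ) : Prop :=
  ∀ F : MvPolynomial (Fin E) ℂ, (∀ a ∈ F.support, a.degree < D) →
    (∀ i, VanishesToOrder (w i) (p i) F) → F = 0

/-- The exponents of degree less than `D`. -/
noncomputable def B (E D : ℕ) : Finset (Fin E →₀ ℕ) := (Finsupp.finite_of_degree_lt D).toFinset

lemma mem_B {E D : ℕ} {a : Fin E →₀ ℕ} : a ∈ B E D ↔ a.degree < D := by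
  unfold B
  rw [Set.Finite.mem_toFinset]
  rfl

/-- Taylor expansion at `p`. -/
noncomputable abbrev T {E : ℕ} (p : Fin E → ℂ) :
    MvPolynomial (Fin E) ℂ →ₐ[ℂ] MvPolynomial (Fin E) ℂ :=
  aeval (fun j => (X j + C (p j) : MvPolynomial (Fin E) ℂ))

lemma T_deg {E D : ℕ} (p : Fin E → ℂ) {F : MvPolynomial (Fin E) ℂ}
    (hF : ∀ a ∈ F.support, a.degree < D) {c : Fin E →₀ ℕ} (hc : D ≤ c.degree) :
    coeff c (T p F) = 0 := by
  rw [F.as_sum, map_sum, coeff_sum]
  refine Finset.sum_eq_zero fun a ha => ?_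
  rw [coeff_taylor_monomial]
  have h1 : ∃ j, a j < c j := by
    by_contra hcon
    push Not at hcon
    have h2 := hF a ha
    have h3 : c.degree ≤ a.degree := by
      rw [Finsupp.degree_eq_sum, Finsupp.degree_eq_sum]
      exact Finset.sum_le_sum fun j _ => hcon j
    omega
  obtain ⟨j, hj⟩ := h1
  rw [Finset.prod_eq_zero (Finset.mem_univ j), mul_zero]
  rw [Nat.choose_eq_zero_of_lt hj, Nat.cast_zero, zero_mul]

/-- Scaling. -/
noncomputable def sc {E : ℕ} (ε : ℂ) : MvPolynomial (Fin E) ℂ →ₐ[ℂ] MvPolynomial (Fin E) ℂ :=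
  aeval (fun j => (C ε * X j : MvPolynomial (Fin E) ℂ))

lemma sc_monomial {E : ℕ} (ε : ℂ) (a : Fin E →₀ ℕ) (r : ℂ) :
    sc ε (monomial a r) = monomial a (ε ^ a.degree * r) := by
  unfold sc
  rw [aeval_monomial, Finsupp.prod_fintype _ _ (fun i => pow_zero _)]
  have h1 : ∀ i : Fin E, (C ε * X i : MvPolynomial (Fin E) ℂ) ^ a i =
      C (ε ^ a i) * X i ^ a i := fun i => by rw [mul_pow, C_pow]
  simp only [h1]
  rw [Finset.prod_mul_distrib, ← map_prod, Finset.prod_pow_eq_pow_sum,
    ← Finsupp.degree_eq_sum, algebraMap_eq]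
  have h2 : (∏ i : Fin E, (X i : MvPolynomial (Fin E) ℂ) ^ a i) = monomial a 1 := by
    rw [monomial_eq, Finsupp.prod_fintype _ _ (fun i => pow_zero _), C_1, one_mul]
  rw [h2, ← mul_assoc, ← C_mul, C_mul_monomial, mul_one, mul_comm]

lemma coeff_sc {E : ℕ} (ε : ℂ) (c : Fin E →₀ ℕ) (F : MvPolynomial (Fin E) ℂ) :
    coeff c (sc ε F) = ε ^ c.degree * coeff c F := by
  classical
  conv_lhs => rw [F.as_sum]
  rw [map_sum, coeff_sum]
  simp only [sc_monomial, coeff_monomial]
  by_cases hc : c ∈ F.support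
  · rw [Finset.sum_eq_single c (fun a _ ha => if_neg ha) (fun h => absurd hc h), if_pos rfl]
  · have h1 : ∀ a ∈ F.support, (if a = c then ε ^ a.degree * coeff a F else 0) = 0 := by
      intro a ha
      rw [if_neg]
      rintro rfl
      exact hc ha
    rw [Finset.sum_eq_zero h1, notMem_support_iff.1 hc, mul_zero]

/-- A linear projection. -/
lemma exists_proj {E : ℕ} (W : ℕ) (V : Submodule ℂ (MvPolynomial (Fin E) ℂ))
    (hV : ∀ F ∈ V, (∀ a ∈ F.support, a.degree < W) → F = 0) :
    ∃ L : MvPolynomial (Fin E) ℂ →ₗ[ℂ] MvPolynomial (Fin E) ℂ,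
      (∀ F : MvPolynomial (Fin E) ℂ, (∀ a ∈ F.support, a.degree < W) → L F = F) ∧
      ∀ F ∈ V, L F = 0 := by
  classical
  let P : Submodule ℂ (MvPolynomial (Fin E) ℂ) := restrictSupport ℂ {a | a.degree < W}
  have hP : ∀ F : MvPolynomial (Fin E) ℂ, F ∈ P ↔ ∀ a ∈ F.support, a.degree < W := by
    intro F
    show F ∈ restrictSupport ℂ {a : Fin E →₀ ℕ | a.degree < W} ↔ _
    rw [mem_restrictSupport_iff]
    exact Iff.rfl
  obtain ⟨S, hS⟩ := LinearMap.exists_leftInverse_of_injective (V.mkQ ∘ₗ P.subtype) (by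
    rw [LinearMap.ker_eq_bot']
    intro x hx
    have h1 : (x : MvPolynomial (Fin E) ℂ) ∈ V := (Submodule.Quotient.mk_eq_zero V).1 hx
    exact Subtype.ext (hV x h1 ((hP _).1 x.2)))
  refine ⟨P.subtype ∘ₗ S ∘ₗ V.mkQ, fun F hF => ?_, fun F hF => ?_⟩
  · have h1 := LinearMap.congr_fun hS ⟨F, (hP F).2 hF⟩
    have h2 : S (V.mkQ F) = ⟨F, (hP F).2 hF⟩ := h1
    show ((S (V.mkQ F) : P) : MvPolynomial (Fin E) ℂ) = F
    rw [h2]
  · show ((S (V.mkQ F) : P) : MvPolynomial (Fin E) ℂ) = 0
    have h1 : V.mkQ F = 0 := (Submodule.Quotient.mk_eq_zero V).2 hF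
    rw [h1, map_zero]
    rfl

/-- Polynomials vanishing at the points of a family. -/
noncomputable def Van {E : ℕ} {ι : Type} (w : ι → ℕ) (p : ι → Fin E → ℂ) :
    Submodule ℂ (MvPolynomial (Fin E) ℂ) where
  carrier := {F | ∀ i, VanishesToOrder (w i) (p i) F}
  add_mem' := by
    intro F G hF hG i s hs
    rw [map_add, coeff_add, hF i s hs, hG i s hs, add_zero]
  zero_mem' := fun i s _ => by simp
  smul_mem' := by
    intro c F hF i s hs
    rw [map_smul, coeff_smul, hF i s hs, smul_zero]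

/-- The polynomial with coefficient vector `v`. -/
noncomputable def pol {E D : ℕ} (v : B E D → ℂ) : MvPolynomial (Fin E) ℂ :=
  ∑ a : B E D, v a • monomial (a : Fin E →₀ ℕ) (1 : ℂ)

lemma coeff_pol {E D : ℕ} (v : B E D → ℂ) (a : B E D) : coeff (a : Fin E →₀ ℕ) (pol v) = v a := by
  classical
  unfold pol
  rw [coeff_sum]
  simp only [coeff_smul, coeff_monomial, smul_eq_mul, mul_ite, mul_one, mul_zero]
  rw [Finset.sum_eq_single a]
  · rw [if_pos rfl]
  · intro b _ hb
    rw [if_neg]
    exact fun h => hb (Subtype.ext h)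
  · intro h
    exact absurd (Finset.mem_univ a) h

lemma pol_deg {E D : ℕ} (v : B E D → ℂ) : ∀ a ∈ (pol v).support, a.degree < D := by
  classical
  intro a ha
  by_contra hcon
  apply mem_support_iff.1 ha
  unfold pol
  rw [coeff_sum]
  refine Finset.sum_eq_zero fun b _ => ?_
  rw [coeff_smul, coeff_monomial, if_neg, smul_zero]
  rintro rfl
  exact hcon (mem_B.1 b.2)

lemma eq_pol {E D : ℕ} {F : MvPolynomial (Fin E) ℂ} (hF : ∀ a ∈ F.support, a.degree < D) :
    F = pol (fun a : B E D => coeff (a : Fin E →₀ ℕ) F) := by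
  classical
  ext a
  by_cases ha : a.degree < D
  · rw [coeff_pol _ ⟨a, mem_B.2 ha⟩]
  · rw [notMem_support_iff.1 fun h => ha (hF a h), notMem_support_iff.1 fun h => ha (pol_deg _ a h)]

/-- The `(i, b)` row of the matrix, for the projection `L`, at the value `x`. -/
noncomputable def entry {E : ℕ} (D W : ℕ) (p : Fin E → ℂ)
    (L : MvPolynomial (Fin E) ℂ →ₗ[ℂ] MvPolynomial (Fin E) ℂ) (b a : Fin E →₀ ℕ) :
    MvPolynomial Unit ℂ :=
  C (coeff b (T p (monomial a 1))) +
    ∑ c ∈ (B E D).filter (fun c => W ≤ c.degree), X () ^ (c.degree - b.degree) *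
      C (coeff c (T p (monomial a 1)) * coeff b (L (monomial c 1)))

lemma coeff_T_pol {E D : ℕ} (p : Fin E → ℂ) (v : B E D → ℂ) (c : Fin E →₀ ℕ) :
    coeff c (T p (pol v)) = ∑ a : B E D, coeff c (T p (monomial (a : Fin E →₀ ℕ) 1)) * v a := by
  unfold pol
  rw [map_sum, coeff_sum]
  refine Finset.sum_congr rfl fun a _ => ?_
  rw [map_smul, coeff_smul, smul_eq_mul, mul_comm]

lemma row {E : ℕ} (D W : ℕ) (p : Fin E → ℂ)
    (L : MvPolynomial (Fin E) ℂ →ₗ[ℂ] MvPolynomial (Fin E) ℂ) (b : Fin E →₀ ℕ) (x : Unit → ℂ)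
    (v : B E D → ℂ) :
    ∑ a : B E D, eval x (entry D W p L b a) * v a =
      coeff b (T p (pol v)) + ∑ c ∈ (B E D).filter (fun c => W ≤ c.degree),
        x () ^ (c.degree - b.degree) * (coeff c (T p (pol v)) * coeff b (L (monomial c 1))) := by
  unfold entry
  simp only [map_add, map_sum, map_mul, map_pow, eval_X, eval_C, add_mul, Finset.sum_add_distrib,
    Finset.sum_mul, coeff_T_pol]
  congr 1
  rw [Finset.sum_comm]
  refine Finset.sum_congr rfl fun c _ => ?_
  rw [Finset.mul_sum]
  refine Finset.sum_congr rfl fun a _ => ?_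
  ring

/-- **Collision.** -/
theorem collide {E D : ℕ} {I J : Type} [Fintype I] (w : I → ℕ) (p : I → Fin E → ℂ)
    (hp : AffBot D w p) (m : J → ℕ) (g : J → Option I) (q : J → Fin E → ℂ)
    (hq : ∀ i, AffBot (w i) (fun j : {j // g j = some i} => m j) (fun j => q j)) :
    ∃ x : J → Fin E → ℂ, AffBot D m x := by
  classical
  have hL := fun i => exists_proj (w i) (Van (fun j : {j // g j = some i} => m j) (fun j => q j))
    (fun F hF hd => hq i F hd hF)
  choose L hL1 hL2 using hL
  let A : Matrix (Σ i : I, B E (w i)) (B E D) (MvPolynomial Unit ℂ) :=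
    fun ib a => entry D (w ib.1) (p ib.1) (L ib.1) (ib.2 : Fin E →₀ ℕ) (a : Fin E →₀ ℕ)
  have hrow : ∀ (x : Unit → ℂ) (v : B E D → ℂ) (ib : Σ i : I, B E (w i)),
      (A.map (eval x)).mulVec v ib = coeff (ib.2 : Fin E →₀ ℕ) (T (p ib.1) (pol v)) +
        ∑ c ∈ (B E D).filter (fun c => w ib.1 ≤ c.degree),
          x () ^ (c.degree - (ib.2 : Fin E →₀ ℕ).degree) * (coeff c (T (p ib.1) (pol v)) *
            coeff (ib.2 : Fin E →₀ ℕ) (L ib.1 (monomial c 1))) := by
    intro x v ib
    rw [← row]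
    rfl
  -- injectivity at `0`
  have h0 : ∀ v : B E D → ℂ, (A.map (eval (fun _ : Unit => (0 : ℂ)))).mulVec v = 0 → v = 0 := by
    intro v hv
    have h1 : pol v = 0 := by
      refine hp _ (pol_deg v) fun i b hb => ?_
      have h2 := congrFun hv ⟨i, ⟨b, mem_B.2 hb⟩⟩
      rw [hrow, Finset.sum_eq_zero, add_zero] at h2
      · exact h2
      · intro c hc
        rw [Finset.mem_filter] at hc
        have h3 : c.degree - b.degree ≠ 0 := by
          have h4 : w i ≤ c.degree := hc.2
          omega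
        show (0 : ℂ) ^ (c.degree - b.degree) * _ = 0
        rw [zero_pow h3, zero_mul]
    funext a
    rw [← coeff_pol v a, h1, coeff_zero]
    rfl
  obtain ⟨D₀, hD₀, hD₁⟩ := generic_finrank_ker A (fun _ : Unit => (0 : ℂ)) 0 (by
    have h1 : LinearMap.ker (A.map (eval (fun _ : Unit => (0 : ℂ)))).mulVecLin = ⊥ := by
      rw [LinearMap.ker_eq_bot']
      exact h0
    rw [h1, finrank_bot])
  obtain ⟨x, hx⟩ := exists_eval_ne_zero (D := D₀ * X ())
    (mul_ne_zero (fun h => hD₀ (by rw [h, map_zero])) (X_ne_zero _))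
  rw [map_mul, eval_X] at hx
  have hx1 := left_ne_zero_of_mul hx
  have hx2 := right_ne_zero_of_mul hx
  have h2 : ∀ v : B E D → ℂ, (A.map (eval x)).mulVec v = 0 → v = 0 := by
    intro v hv
    have h3 := Nat.le_zero.1 (hD₁ x hx1)
    have h4 : LinearMap.ker (A.map (eval x)).mulVecLin = ⊥ := Submodule.finrank_eq_zero.1 h3
    have h5 : v ∈ LinearMap.ker (A.map (eval x)).mulVecLin := hv
    rw [h4] at h5
    exact h5
  set ε : ℂ := x () with hε
  refine ⟨fun j => match g j with
    | some i => fun l => p i l + ε * q j l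
    | none => q j, ?_⟩
  intro F hF hv
  rw [eq_pol hF]
  set v : B E D → ℂ := fun a : B E D => coeff (a : Fin E →₀ ℕ) F with hvdef
  have hpol : pol v = F := (eq_pol hF).symm
  suffices h : v = 0 by
    rw [h]
    unfold pol
    simp
  apply h2
  funext ib
  obtain ⟨i, b, hb⟩ := ib
  rw [hrow, hpol]
  show coeff b (T (p i) F) + ∑ c ∈ (B E D).filter (fun c => w i ≤ c.degree),
    ε ^ (c.degree - b.degree) * (coeff c (T (p i) F) * coeff b (L i (monomial c 1))) = 0
  -- the rescaled polynomial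
  set G : MvPolynomial (Fin E) ℂ := sc ε (T (p i) F) with hG
  have hGV : G ∈ Van (fun j : {j // g j = some i} => m j) (fun j => q j) := by
    intro j
    have h3 := hv j
    have h4 : G = aeval (fun l => (C (p i l) + C ε * X l : MvPolynomial (Fin E) ℂ)) F := by
      rw [hG]
      have h5 : (sc ε).comp (T (p i)) =
          aeval (fun l => (C (p i l) + C ε * X l : MvPolynomial (Fin E) ℂ)) := by
        apply MvPolynomial.algHom_ext
        intro l
        simp only [AlgHom.comp_apply, aeval_X, map_add, sc]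
        rw [← algebraMap_eq, AlgHom.commutes]
        ring
      exact DFunLike.congr_fun h5 F
    rw [h4]
    refine VanishesToOrder.comp _ _ ?_
    have h6 : (fun l => eval (q j) (C (p i l) + C ε * X l : MvPolynomial (Fin E) ℂ)) =
        fun l => p i l + ε * q j l := by
      funext l
      simp
    rw [h6]
    have h7 := j.2
    simp only [h7] at h3
    exact h3
  have hLG := hL2 i G hGV
  have hGs : G = ∑ c ∈ B E D, (ε ^ c.degree * coeff c (T (p i) F)) • monomial c (1 : ℂ) := by
    ext c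
    rw [hG, coeff_sc, coeff_sum]
    simp only [coeff_smul, coeff_monomial, smul_eq_mul, mul_ite, mul_one, mul_zero]
    rw [Finset.sum_ite_eq']
    by_cases hc : c ∈ B E D
    · rw [if_pos hc]
    · rw [if_neg hc, T_deg (p i) hF (by
        rw [mem_B] at hc
        omega), mul_zero]
  have hb' : b.degree < w i := mem_B.1 hb
  have key : ε ^ b.degree * (coeff b (T (p i) F) +
      ∑ c ∈ (B E D).filter (fun c => w i ≤ c.degree),
        ε ^ (c.degree - b.degree) * (coeff c (T (p i) F) * coeff b (L i (monomial c 1)))) = 0 := by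
    have h3 : coeff b (L i G) = 0 := by rw [hLG, coeff_zero]
    rw [hGs, map_sum, coeff_sum, ← Finset.sum_filter_add_sum_filter_not (B E D)
      (fun c => w i ≤ c.degree)] at h3
    rw [mul_add, add_comm, ← h3]
    congr 1
    · rw [Finset.mul_sum]
      refine Finset.sum_congr rfl fun c hc => ?_
      rw [Finset.mem_filter] at hc
      rw [map_smul, coeff_smul, smul_eq_mul]
      have h5 : ε ^ c.degree = ε ^ b.degree * ε ^ (c.degree - b.degree) := by
        rw [← pow_add]
        congr 1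
        have := hc.2
        omega
      rw [h5]
      ring
    · have h6 : ∀ c ∈ (B E D).filter (fun c => ¬ w i ≤ c.degree),
          coeff b (L i ((ε ^ c.degree * coeff c (T (p i) F)) • monomial c (1 : ℂ))) =
            if c = b then ε ^ c.degree * coeff c (T (p i) F) else 0 := by
        intro c hc
        rw [Finset.mem_filter] at hc
        rw [map_smul, hL1 i (monomial c 1) (by
          intro a ha
          have h7 := support_monomial_subset ha
          rw [Finset.mem_singleton] at h7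
          rw [h7]
          have := hc.2
          omega), coeff_smul, coeff_monomial, smul_eq_mul]
        split_ifs <;> simp
      rw [Finset.sum_congr rfl h6, Finset.sum_ite_eq']
      by_cases hbD : b ∈ B E D
      · rw [if_pos]
        rw [Finset.mem_filter]
        exact ⟨hbD, by omega⟩
      · rw [if_neg fun h => hbD (Finset.mem_filter.1 h).1, T_deg (p i) hF (by
          rw [mem_B] at hbD
          omega), mul_zero]
  exact (mul_eq_zero.1 key).resolve_left (pow_ne_zero _ hx2)

/-- One point. -/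
theorem one {E W b : ℕ} (h : W ≤ b) (q : Fin E → ℂ) {F : MvPolynomial (Fin E) ℂ}
    (hF : ∀ a ∈ F.support, a.degree < W) (hv : VanishesToOrder b q F) : F = 0 := by
  have h1 : T q F = 0 := by
    ext c
    rw [coeff_zero]
    rcases lt_or_ge c.degree W with hc | hc
    · exact hv c (by omega)
    · exact T_deg q hF hc
  have h2 : (T (fun j => - q j)).comp (T q) = AlgHom.id ℂ (MvPolynomial (Fin E) ℂ) := by
    apply MvPolynomial.algHom_ext
    intro i
    simp [T, algHom_C, algebraMap_eq]
  have h3 := DFunLike.congr_fun h2 F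
  rw [AlgHom.comp_apply, h1, map_zero] at h3
  exact h3.symm

/-- There are points with multiplicities `M` and no polynomials of degree less than `D`. -/
def Emp (E D : ℕ) (M : Multiset ℕ) : Prop :=
  ∃ (J : Type) (_ : Fintype J) (m : J → ℕ) (x : J → Fin E → ℂ),
    (univ : Finset J).val.map m = M ∧ AffBot D m x

lemma AffBot.mono {E D D' : ℕ} {ι : Type} {w : ι → ℕ} {p : ι → Fin E → ℂ} (h : AffBot D w p)
    (hD : D' ≤ D) : AffBot D' w p :=
  fun F hF hv => h F (fun a ha => lt_of_lt_of_le (hF a ha) hD) hv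

theorem Emp.mono {E D D' : ℕ} {M : Multiset ℕ} (h : Emp E D M) (hD : D' ≤ D) : Emp E D' M := by
  obtain ⟨J, hJ, m, x, hm, hx⟩ := h
  exact ⟨J, hJ, m, x, hm, hx.mono hD⟩

theorem Emp.point {E D : ℕ} {M : Multiset ℕ} (h : Emp E D M) (b : ℕ) : Emp E D (b ::ₘ M) := by
  classical
  obtain ⟨J, _, m, x, hm, hx⟩ := h
  refine ⟨Option J, inferInstance, fun j => j.elim b m, fun j => j.elim 0 x, ?_, ?_⟩
  · rw [univ_option, Finset.insertNone]
    simp [← hm]
    all_goals rfl
  · intro F hF hv
    exact hx F hF fun j => hv (some j)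

theorem Emp.collision {E D μ : ℕ} {M M' : Multiset ℕ} (h : Emp E D (μ ::ₘ M)) (h' : Emp E μ M') :
    Emp E D (M' + M) := by
  classical
  obtain ⟨J, _, w, p, hw, hp⟩ := h
  obtain ⟨J', _, m', x', hm', hx'⟩ := h'
  obtain ⟨j₀, hj, hM⟩ : ∃ j₀ : J, w j₀ = μ ∧
      (univ : Finset {j // j ≠ j₀}).val.map (fun j : {j // j ≠ j₀} => w j) = M := by
    have h1 : μ ∈ (univ : Finset J).val.map w := by
      rw [hw]
      exact Multiset.mem_cons_self _ _
    obtain ⟨j₀, -, hj⟩ := Multiset.mem_map.1 h1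
    refine ⟨j₀, hj, ?_⟩
    have h2 := Finset.univ_val_map_subtype_restrict w (fun j => j ≠ j₀)
    have h3 : (univ.filter fun j => j ≠ j₀) = univ.erase j₀ := by
      ext j
      simp
    rw [h3, Finset.erase_val] at h2
    have h4 : (univ : Finset J).val = j₀ ::ₘ (univ : Finset J).val.erase j₀ :=
      (Multiset.cons_erase (Finset.mem_univ j₀)).symm
    rw [h4, Multiset.map_cons, hj] at hw
    rw [← (Multiset.cons_inj_right μ).1 hw, ← h2]
    rfl
  obtain ⟨x, hx⟩ := collide w p hp (J := J' ⊕ {j // j ≠ j₀})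
    (Sum.elim m' fun j => w j) (Sum.elim (fun _ => some j₀) fun j => some (j : J))
    (Sum.elim x' fun _ _ => 0) (fun i F hF hv => by
      by_cases hi : i = j₀
      · subst hi
        rw [hj] at hF
        exact hx' F hF fun j => hv ⟨Sum.inl j, rfl⟩
      · exact one le_rfl _ hF (hv ⟨Sum.inr ⟨i, hi⟩, rfl⟩))
  refine ⟨J' ⊕ {j // j ≠ j₀}, inferInstance, _, x, ?_, hx⟩
  rw [← Finset.univ_disjSum_univ, Finset.val_disjSum, Multiset.disjSum, Multiset.map_add,
    Multiset.map_map, Multiset.map_map, ← hm', ← hM]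
  rfl

theorem transport {α : Type} {I J : Type} [Fintype I] [Fintype J] (m : I → α) (m' : J → α)
    (h : (univ : Finset I).val.map m = (univ : Finset J).val.map m') :
    ∃ e : I ≃ J, ∀ i, m' (e i) = m i := by
  classical
  have h1 : ∀ a, Nonempty ({i // m i = a} ≃ {j // m' j = a}) := by
    intro a
    rw [← Fintype.card_eq, Fintype.card_subtype, Fintype.card_subtype]
    have h2 := congrArg (Multiset.count a) h
    rw [Multiset.count_map, Multiset.count_map] at h2
    simp only [eq_comm (a := a)] at h2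
    exact h2
  let e : ∀ a, {i // m i = a} ≃ {j // m' j = a} := fun a => (h1 a).some
  refine ⟨(Equiv.sigmaFiberEquiv m).symm.trans
    ((Equiv.sigmaCongrRight e).trans (Equiv.sigmaFiberEquiv m')), fun i => ?_⟩
  exact (e (m i) ⟨i, rfl⟩).2

theorem Emp.fin {E D : ℕ} {I : Type} [Fintype I] {m : I → ℕ}
    (h : Emp E D ((univ : Finset I).val.map m)) :
    ∃ x : I → Fin E → ℂ, AffBot D m x := by
  obtain ⟨J, _, m', x, hm, hx⟩ := h
  obtain ⟨e, he⟩ := transport m m' hm.symm
  refine ⟨fun i => x (e i), fun F hF hv => hx F hF fun j => ?_⟩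
  have h1 := hv (e.symm j)
  rw [← he] at h1
  simp only [Equiv.apply_symm_apply] at h1
  exact h1

end Pool.Agent.Y55.Col
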