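import Pool.Agent.Y55.Col.Coll
import Pool.Agent.TH176.FB.J25

/-!
Comparison of forms and polynomials.
-/

set_option autoImplicit false

namespace Pool.Agent.Y55.Col

open MvPolynomial Finset Pool.Agent.H938R2

lemma pointIdeal_smul {n : ℕ} (v : Fin n → ℂ) {c : ℂ} (hc : c ≠ 0) :
    H350MG.pointIdeal (c • v) = H350MG.pointIdeal v := by
  ext F
  constructor
  · intro h t
    have h1 := h (t * c⁻¹)
    rwa [smul_smul, mul_assoc, inv_mul_cancel₀ hc, mul_one] at h1
  · intro h t
    have h1 := h (t * c)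
    rwa [← smul_smul] at h1

lemma vanishes_smul {n m d : ℕ} {v : Fin n → ℂ} (hv : v ≠ 0) {c : ℂ} (hc : c ≠ 0)
    {F : MvPolynomial (Fin n) ℂ} (hF : F.IsHomogeneous d) (h : VanishesToOrder m v F) :
    VanishesToOrder m (c • v) F := by
  have hF' : F ∈ homogeneousSubmodule (Fin n) ℂ d := (mem_homogeneousSubmodule _ _).2 hF
  rw [← Pool.Agent.TH176.FB.mem_pow_iff_vanishes (smul_ne_zero hc hv) hF', pointIdeal_smul v hc,
    Pool.Agent.TH176.FB.mem_pow_iff_vanishes hv hF']
  exact h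

/-- Homogenisation in degree `d`. -/
noncomputable def hom {n : ℕ} (d : ℕ) (f : MvPolynomial (Fin (n + 1)) ℂ) :
    MvPolynomial (Fin (n + 2)) ℂ :=
  ∑ a ∈ f.support, monomial (Finsupp.cons (d - a.degree) a) (coeff a f)

lemma hom_hom {n d : ℕ} {f : MvPolynomial (Fin (n + 1)) ℂ} (hf : ∀ a ∈ f.support, a.degree < d + 1) :
    (hom d f).IsHomogeneous d := by
  unfold hom
  refine IsHomogeneous.sum _ _ _ fun a ha => isHomogeneous_monomial _ ?_
  have h1 := hf a ha
  rw [Finsupp.degree_eq_sum, Fin.sum_univ_succ]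
  simp only [Finsupp.cons_zero, Finsupp.cons_succ]
  rw [← Finsupp.degree_eq_sum]
  omega

lemma dehom_hom {n d : ℕ} (f : MvPolynomial (Fin (n + 1)) ℂ) :
    Elim.dehom n (hom d f) = f := by
  unfold hom
  rw [map_sum]
  simp only [Elim.dehom_monomial, Finsupp.tail_cons]
  exact (f.as_sum).symm

/-- Multiplicities of the homogenisation. -/
lemma vanishes_of_dehom {n d w : ℕ} {p : Fin (n + 1) → ℂ} {F : MvPolynomial (Fin (n + 2)) ℂ}
    (hF : F.IsHomogeneous d) (h : VanishesToOrder w p (Elim.dehom n F)) :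
    VanishesToOrder w (Fin.cons 1 p) F := by
  classical
  set φ : MvPolynomial (Fin (n + 2)) ℂ →ₐ[ℂ] MvPolynomial (Fin (n + 2)) ℂ :=
    aeval (Fin.cons (X 0) fun j : Fin (n + 1) => X j.succ + C (p j) * X 0) with hφ
  set ψ : Fin (n + 2) → MvPolynomial (Fin (n + 2)) ℂ :=
    Fin.cons (X 0) fun j : Fin (n + 1) => X j.succ - C (p j) * X 0 with hψ
  have h1 : (φ F).IsHomogeneous d := by
    have h2 : (φ F).IsHomogeneous (1 * d) := by
      apply hF.aeval
      intro i
      refine Fin.cases ?_ (fun j => ?_) i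
      · exact isHomogeneous_X ℂ _
      · rw [Fin.cons_succ]
        refine (isHomogeneous_X ℂ _).add ?_
        simpa using (isHomogeneous_C (Fin (n + 2)) (p j)).mul (isHomogeneous_X ℂ (0 : Fin (n + 2)))
    simpa using h2
  have h2 : Elim.dehom n (φ F) = T p (Elim.dehom n F) := by
    have h3 : (Elim.dehom n).comp φ = (T p).comp (Elim.dehom n) := by
      apply MvPolynomial.algHom_ext
      intro i
      refine Fin.cases ?_ (fun j => ?_) i
      · simp [Elim.dehom, hφ]
      · simp [Elim.dehom, hφ, T, algHom_C, algebraMap_eq]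
    exact DFunLike.congr_fun h3 F
  have h3 : VanishesToOrder w (Pi.single 0 1) (φ F) := by
    rw [vanishesToOrder_coord 0 h1]
    intro β hβ
    have h4 : β.degree = d := (isHomogeneous_iff _).mp h1 β hβ
    have h5 := Elim.coeff_dehom h1 β h4
    by_contra hcon
    apply mem_support_iff.1 hβ
    rw [← h5, h2]
    apply h
    rw [Finsupp.degree_eq_sum, Fin.sum_univ_succ] at h4
    rw [Finsupp.degree_eq_sum]
    simp only [Finsupp.tail_apply]
    omega
  have h4 : F = aeval ψ (φ F) := by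
    have h5 : (aeval ψ).comp φ = AlgHom.id ℂ (MvPolynomial (Fin (n + 2)) ℂ) := by
      apply MvPolynomial.algHom_ext
      intro i
      refine Fin.cases ?_ (fun j => ?_) i
      · simp [hφ, hψ]
      · simp [hφ, hψ, algHom_C, algebraMap_eq]
    exact (DFunLike.congr_fun h5 F).symm
  rw [h4]
  refine VanishesToOrder.comp _ _ ?_
  have h5 : (fun i => eval (Fin.cons 1 p : Fin (n + 2) → ℂ) (ψ i)) = Pi.single 0 1 := by
    funext i
    refine Fin.cases ?_ (fun j => ?_) i
    · simp [hψ]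
    · simp [hψ]
  rw [h5]
  exact h3

/-- From forms to polynomials. -/
theorem hom_mem {n N d : ℕ} (w : Fin N → ℕ) (P : Fin N → Fin (n + 2) → ℂ)
    (h0 : ∀ i, P i 0 ≠ 0) {f : MvPolynomial (Fin (n + 1)) ℂ} (hf : ∀ a ∈ f.support, a.degree < d + 1)
    (hv : ∀ i, VanishesToOrder (w i) (fun j : Fin (n + 1) => (P i 0)⁻¹ * P i j.succ) f) :
    hom d f ∈ forms (n + 2) d w P := by
  refine ⟨hom_hom hf, fun i => ?_⟩
  have h2 : VanishesToOrder (w i)
      (Fin.cons 1 (fun j : Fin (n + 1) => (P i 0)⁻¹ * P i j.succ)) (hom d f) := by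
    apply vanishes_of_dehom (hom_hom hf)
    rw [dehom_hom]
    exact hv i
  have h3 : P i = P i 0 •
      (Fin.cons 1 (fun j : Fin (n + 1) => (P i 0)⁻¹ * P i j.succ) : Fin (n + 2) → ℂ) := by
    funext l
    refine Fin.cases ?_ (fun j => ?_) l
    · simp
    · simp [mul_inv_cancel_left₀ (h0 i)]
  rw [h3]
  refine vanishes_smul ?_ (h0 i) (hom_hom hf) h2
  intro h4
  have h5 := congrFun h4 0
  simp at h5

/-- From forms to polynomials. -/
theorem aff_of_forms {n N d : ℕ} (w : Fin N → ℕ) (P : Fin N → Fin (n + 2) → ℂ)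
    (h0 : ∀ i, P i 0 ≠ 0) (h : forms (n + 2) d w P = ⊥) :
    AffBot (d + 1) w (fun i (j : Fin (n + 1)) => (P i 0)⁻¹ * P i j.succ) := by
  intro f hf hv
  have h1 := hom_mem w P h0 hf hv
  rw [h, Submodule.mem_bot] at h1
  rw [← dehom_hom (d := d) f, h1, map_zero]

/-- From polynomials to forms. -/
theorem form_zero_of_aff {n d : ℕ} {ι : Type} {m : ι → ℕ} {x : ι → Fin (n + 1) → ℂ}
    (h : AffBot (d + 1) m x) {F : MvPolynomial (Fin (n + 2)) ℂ} (hF : F.IsHomogeneous d)
    (hv : ∀ i, VanishesToOrder (m i) (Fin.cons 1 (x i)) F) : F = 0 := by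
  have h1 : Elim.dehom n F = 0 := by
    apply h
    · intro a ha
      have h2 := Pool.Agent.TH176.FB.Fat.totalDegree_dehom hF
      have h3 : a.degree ≤ (Elim.dehom n F).totalDegree := by
        have := le_totalDegree ha
        rwa [Finsupp.degree_eq_sum, ← Finsupp.sum_fintype a (fun _ e => e) (fun _ => rfl)]
      omega
    · intro i
      exact Elim.vanishes_dehom (hv i)
  ext β
  rw [coeff_zero]
  by_cases hβ : β.degree = d
  · rw [← Elim.coeff_dehom hF β hβ, h1, coeff_zero]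
  · by_contra hne
    exact hβ ((isHomogeneous_iff F).mp hF β (mem_support_iff.mpr hne))

/-- From polynomials to forms. -/
theorem forms_of_aff {n k d : ℕ} {m : Fin k → ℕ} {x : Fin k → Fin (n + 1) → ℂ}
    (h : AffBot (d + 1) m x) : forms (n + 2) d m (fun i => Fin.cons 1 (x i)) = ⊥ := by
  rw [eq_bot_iff]
  intro F hF
  rw [Submodule.mem_bot]
  exact form_zero_of_aff h hF.1 hF.2

lemma forGeneral_zero_coord {n k : ℕ} :
    ForGeneral (n + 2) k (fun p => ∀ i, p i 0 ≠ 0) := by
  refine ⟨∏ i, X (i, 0), Finset.prod_ne_zero_iff.mpr fun i _ => X_ne_zero _,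
    fun p hp i h0 => ?_⟩
  apply hp
  rw [map_prod]
  apply Finset.prod_eq_zero (Finset.mem_univ i)
  rw [eval_X]
  exact h0

lemma finrank_zero_iff {n d k : ℕ} (m : Fin k → ℕ) (p : Fin k → Fin n → ℂ) :
    Module.finrank ℂ (forms n d m p) = 0 ↔ forms n d m p = ⊥ := by
  have : FiniteDimensional ℂ (forms n d m p) := by
    have h3 : forms n d m p ≤ homogeneousSubmodule (Fin n) ℂ d := fun F hF => hF.1
    exact Submodule.finiteDimensional_of_le h3
  exact Submodule.finrank_eq_zero

end Pool.Agent.Y55.Col
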