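import Pool.Agent.TH176.FB.J25
import Pool.Agent.TH176.FB.Final

/-!
Semicontinuity of the ranks in a family of forms, and the family of the powers of generic forms. The
statements and the proofs are those of the starting files `Pool/Agent/TH176/RK/Fam.lean` and
`Pool/Agent/TH176/RK/Fam2.lean`, which have a larger import closure.
-/

set_option autoImplicit false

namespace Pool.Agent.Y55.Col

open MvPolynomial Finset Pool.Agent.TH206.Fro Pool.Agent.TH176.FB

/-- Semicontinuity in a family of forms whose coefficients are integral polynomials in parameters. -/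
theorem spec_fam (K L : Type) [Field K] [CharZero K] [Field L] [CharZero L] (n r k : ℕ)
    (d : Fin r → ℕ) {τ : Type} (φ : Io n d → MvPolynomial τ ℤ) (t0 : τ → L)
    (f0 : Fin r → MvPolynomial (Fin n) L) (h0 : ∀ i, (f0 i).IsHomogeneous (d i))
    (hf0 : ∀ s : Io n d, (f0 s.1).coeff s.2.1 = aeval t0 (φ s)) :
    ∃ P : MvPolynomial τ K, P ≠ 0 ∧
      ∀ (t : τ → K) (f : Fin r → MvPolynomial (Fin n) K), (∀ i, (f i).IsHomogeneous (d i)) →
        (∀ s : Io n d, (f s.1).coeff s.2.1 = aeval t (φ s)) →
        MvPolynomial.eval t P ≠ 0 →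
        Module.finrank L (ik f0 k) ≤ Module.finrank K (ik f k) := by
  classical
  obtain ⟨f, g, hfg⟩ := exists_minor (Mx d k (fun s : Io n d => (f0 s.1).coeff s.2.1)) _ le_rfl
  let M : Matrix (Ro n k d) (Dg n k) (MvPolynomial τ ℤ) := Mx d k φ
  have hev : ∀ (F : Type) [Field F] (t : τ → F),
      MvPolynomial.eval t (MvPolynomial.map (Int.castRingHom F) (M.submatrix f g).det) =
        ((Mx d k (fun s => aeval t (φ s))).submatrix f g).det := by
    intro F _ t
    have e1 : ∀ q : MvPolynomial τ ℤ,
        MvPolynomial.eval t (MvPolynomial.map (Int.castRingHom F) q) = aeval t q := by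
      intro q
      rw [MvPolynomial.eval_map, MvPolynomial.aeval_def, algebraMap_int_eq]
    rw [e1, AlgHom.map_det]
    congr 1
    ext i j
    simp only [AlgHom.mapMatrix_apply, Matrix.map_apply, Matrix.submatrix_apply]
    show aeval t (Mx d k φ (f i) (g j)) = _
    unfold Mx
    split_ifs with h
    · rfl
    · exact map_zero _
  have hne : (M.submatrix f g).det ≠ 0 := by
    intro h
    apply hfg
    have h1 := hev L t0
    rw [h, map_zero, map_zero] at h1
    have h2 : (fun s : Io n d => (f0 s.1).coeff s.2.1) = fun s => aeval t0 (φ s) := by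
      funext s
      exact hf0 s
    exact (congrArg (fun M : Matrix (Ro n k d) (Dg n k) L => (M.submatrix f g).det)
      (congrArg (Mx d k) h2)).trans h1.symm
  refine ⟨MvPolynomial.map (Int.castRingHom K) (M.submatrix f g).det, fun h => hne ?_,
    fun t F hF hFc hFP => ?_⟩
  · exact MvPolynomial.map_injective _ (RingHom.injective_int (Int.castRingHom K))
      (by rw [h, map_zero])
  · unfold ik
    rw [hilb_thm n k r d L f0 h0, hilb_thm n k r d K F hF]
    rw [hev K] at hFP
    have h2 : (fun s : Io n d => (F s.1).coeff s.2.1) = fun s => aeval t (φ s) := by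
      funext s
      exact hFc s
    rw [← h2] at hFP
    exact rank_ge_of_minor _ _ f g hFP

/-- The family contains the powers of linear forms. -/
def Pows {n r : ℕ} (d : Fin r → ℕ) {τ : Type} (φ : Io n d → MvPolynomial τ ℤ) : Prop :=
  ∀ (L : Type) [Field L] [CharZero L] (p : Fin r → Fin n → L), ∃ t0 : τ → L,
    ∀ s : Io n d, (lf (p s.1) ^ d s.1).coeff s.2.1 = aeval t0 (φ s)

/-- The generic forms of degree `a`. -/
noncomputable def gf (n r a : ℕ) (i : Fin r) :
    MvPolynomial (Fin n) (MvPolynomial (Io n (fun _ : Fin r => a)) ℤ) := by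
  classical
  exact ∑ m ∈ (Mon n a).attach, monomial m.1 (X ⟨i, ⟨m.1, mem_Mon'.1 m.2⟩⟩)

lemma coeff_sum_mon' {n a : ℕ} {R : Type} [CommRing R] (c : {m // m ∈ Mon n a} → R)
    (m : Fin n →₀ ℕ) :
    coeff m (∑ q ∈ (Mon n a).attach, monomial q.1 (c q)) =
      if h : m ∈ Mon n a then c ⟨m, h⟩ else 0 := by
  classical
  rw [coeff_sum]
  simp only [coeff_monomial]
  split_ifs with h
  · rw [Finset.sum_eq_single (⟨m, h⟩ : {m // m ∈ Mon n a})]
    · rw [if_pos rfl]
    · intro s _ hs
      rw [if_neg]
      intro h'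
      exact hs (Subtype.ext h')
    · intro h'
      exact absurd (Finset.mem_attach _ _) h'
  · refine Finset.sum_eq_zero fun s _ => ?_
    rw [if_neg]
    rintro rfl
    exact h s.2

lemma map_gf {n r a : ℕ} {F : Type} [Field F] (g : Fin r → MvPolynomial (Fin n) F)
    (hg : ∀ i, (g i).IsHomogeneous a) (i : Fin r) :
    map (aeval (fun s : Io n (fun _ : Fin r => a) => (g s.1).coeff s.2.1) :
      MvPolynomial (Io n (fun _ : Fin r => a)) ℤ →ₐ[ℤ] F).toRingHom (gf n r a i) = g i := by
  classical
  ext m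
  rw [coeff_map]
  unfold gf
  rw [coeff_sum_mon']
  split_ifs with h
  · exact aeval_X _ _
  · rw [map_zero]
    symm
    exact (hg i).coeff_eq_zero fun h' => h (mem_Mon'.2 h')

/-- The coefficients of the powers of the generic forms. -/
noncomputable def phiF (n r a e : ℕ) (s : Io n (fun _ : Fin r => a * e)) :
    MvPolynomial (Io n (fun _ : Fin r => a)) ℤ :=
  coeff s.2.1 (gf n r a s.1 ^ e)

lemma aeval_phiF {n r a e : ℕ} {F : Type} [Field F] (g : Fin r → MvPolynomial (Fin n) F)
    (hg : ∀ i, (g i).IsHomogeneous a) (s : Io n (fun _ : Fin r => a * e)) :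
    (g s.1 ^ e).coeff s.2.1 =
      aeval (fun s : Io n (fun _ : Fin r => a) => (g s.1).coeff s.2.1) (phiF n r a e s) := by
  have h : aeval (fun s : Io n (fun _ : Fin r => a) => (g s.1).coeff s.2.1) (phiF n r a e s) =
      coeff s.2.1 (map (aeval (fun s : Io n (fun _ : Fin r => a) => (g s.1).coeff s.2.1) :
      MvPolynomial (Io n (fun _ : Fin r => a)) ℤ →ₐ[ℤ] F).toRingHom (gf n r a s.1 ^ e)) := by
    rw [coeff_map]
    rfl
  rw [h, map_pow, map_gf g hg]

theorem pows_phiF {n r : ℕ} (a e : ℕ) : Pows (fun _ : Fin r => a * e) (phiF n r a e) := by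
  intro L _ _ p
  have hg : ∀ i, (lf (p i) ^ a).IsHomogeneous a := fun i => by
    have h := (lf_hom (p i)).pow a
    rwa [one_mul] at h
  refine ⟨fun s => ((fun i => lf (p i) ^ a) s.1).coeff s.2.1, fun s => ?_⟩
  rw [← aeval_phiF (fun i => lf (p i) ^ a) hg s]
  rw [pow_mul]

end Pool.Agent.Y55.Col
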