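import Pool.Agent.Y55.Col.Key

/-!
Independent conditions and collisions.
-/

set_option autoImplicit false

namespace Pool.Agent.Y55.Col

open MvPolynomial Finset Pool.Agent.H938R2

/-- The number of conditions of a point of multiplicity `w`. -/
def cnt (n w : ℕ) : ℕ := (w + n).choose (n + 1)

lemma card_B (n D : ℕ) : (B (n + 1) D).card = cnt n D := by
  classical
  unfold cnt
  induction D with
  | zero =>
    rw [zero_add, Nat.choose_succ_self, Finset.card_eq_zero, Finset.eq_empty_iff_forall_notMem]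
    intro a ha
    rw [mem_B] at ha
    omega
  | succ D ih =>
    have h1 : B (n + 1) (D + 1) = B (n + 1) D ∪ (finite_expo (n + 1) D).toFinset := by
      ext a
      rw [mem_B, Finset.mem_union, mem_B, Set.Finite.mem_toFinset, Set.mem_ofPred_eq]
      omega
    rw [h1, Finset.card_union_of_disjoint, ih, ← Set.ncard_eq_toFinset_card _ (finite_expo (n + 1) D),
      ← Nat.card_coe_set_eq, natCard_expo]
    · have h2 : D + 1 + n = D + n + 1 := by omega
      rw [h2, Nat.choose_succ_succ' (D + n) n, add_comm]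
    · rw [Finset.disjoint_left]
      intro a ha ha'
      rw [mem_B] at ha
      rw [Set.Finite.mem_toFinset, Set.mem_ofPred_eq] at ha'
      omega

/-- Simple points. -/
theorem simple_pts {E : ℕ} : ∀ (s : ℕ) (V : Submodule ℂ (MvPolynomial (Fin E) ℂ)),
    FiniteDimensional ℂ V → Module.finrank ℂ V ≤ s →
    ∃ z : Fin s → Fin E → ℂ, ∀ F ∈ V, (∀ l, eval (z l) F = 0) → F = 0 := by
  intro s
  induction s with
  | zero =>
    intro V _ hV
    have h1 : V = ⊥ := Submodule.finrank_eq_zero.1 (Nat.le_zero.1 hV)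
    refine ⟨fun l => l.elim0, fun F hF _ => ?_⟩
    rwa [h1, Submodule.mem_bot] at hF
  | succ s ih =>
    intro V hfin hV
    by_cases hb : V = ⊥
    · refine ⟨fun _ => 0, fun F hF _ => ?_⟩
      rwa [hb, Submodule.mem_bot] at hF
    obtain ⟨F₀, hF₀, hne⟩ := Submodule.exists_mem_ne_zero_of_ne_bot hb
    obtain ⟨x, hx⟩ := exists_eval_ne_zero hne
    let V' : Submodule ℂ (MvPolynomial (Fin E) ℂ) :=
      V ⊓ LinearMap.ker (aeval x : MvPolynomial (Fin E) ℂ →ₐ[ℂ] ℂ).toLinearMap
    have hmem : ∀ F, F ∈ V' ↔ F ∈ V ∧ eval x F = 0 := by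
      intro F
      rw [Submodule.mem_inf, LinearMap.mem_ker, AlgHom.toLinearMap_apply, ← coe_aeval_eq_eval,
        RingHom.coe_coe]
    have hlt : V' < V := by
      refine lt_of_le_of_ne inf_le_left fun h => ?_
      have h1 : F₀ ∈ V' := by
        rw [h]
        exact hF₀
      exact hx ((hmem _).1 h1).2
    have h2 := Submodule.finrank_lt_finrank_of_lt hlt
    obtain ⟨z, hz⟩ := ih V' (Submodule.finiteDimensional_of_le hlt.le) (by omega)
    refine ⟨Fin.cons x z, fun F hF hv => hz F ((hmem F).2 ⟨hF, hv 0⟩) fun l => hv l.succ⟩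

/-- Polynomials of degree less than `D` with given multiplicities. -/
noncomputable def Vd {E : ℕ} {ι : Type} (D : ℕ) (w : ι → ℕ) (p : ι → Fin E → ℂ) :
    Submodule ℂ (MvPolynomial (Fin E) ℂ) :=
  restrictSupport ℂ {a | a.degree < D} ⊓ Van w p

lemma mem_Vd {E D : ℕ} {ι : Type} {w : ι → ℕ} {p : ι → Fin E → ℂ} {F : MvPolynomial (Fin E) ℂ} :
    F ∈ Vd D w p ↔ (∀ a ∈ F.support, a.degree < D) ∧ ∀ i, VanishesToOrder (w i) (p i) F := by
  unfold Vd
  rw [Submodule.mem_inf, mem_restrictSupport_iff]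
  exact Iff.rfl

instance {E D : ℕ} : Module.Finite ℂ (restrictSupport ℂ {a : Fin E →₀ ℕ | a.degree < D}) := by
  have : Finite {a : Fin E →₀ ℕ | a.degree < D} := Finsupp.finite_of_degree_lt D
  exact finite_restrictSupport _

instance {E D : ℕ} {ι : Type} (w : ι → ℕ) (p : ι → Fin E → ℂ) :
    FiniteDimensional ℂ (Vd D w p) :=
  Submodule.finiteDimensional_of_le (inf_le_left)

lemma vanishes_one {E : ℕ} {z : Fin E → ℂ} {F : MvPolynomial (Fin E) ℂ} :
    VanishesToOrder 1 z F ↔ eval z F = 0 := by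
  have h2 : coeff 0 (T z F) = eval z F := Pool.Agent.TH176.FB.coeff_zero_shiftJ25 z F
  constructor
  · intro h
    rw [← h2]
    exact h 0 (by simp)
  · intro h s hs
    have h3 : s = 0 := by
      rw [← Finsupp.degree_eq_zero_iff]
      omega
    rw [h3]
    exact h2.trans h

theorem emp_of_finrank {E D s : ℕ} {J : Type} [Fintype J] (w : J → ℕ) (p : J → Fin E → ℂ)
    (h : Module.finrank ℂ (Vd D w p) ≤ s) :
    Emp E D (Multiset.replicate s 1 + (univ : Finset J).val.map w) := by
  obtain ⟨z, hz⟩ := simple_pts s (Vd D w p) inferInstance h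
  refine ⟨Fin s ⊕ J, inferInstance, Sum.elim (fun _ => 1) w, Sum.elim z p, ?_, ?_⟩
  · rw [← Finset.univ_disjSum_univ, Finset.val_disjSum, Multiset.disjSum, Multiset.map_add,
      Multiset.map_map, Multiset.map_map]
    congr 1
    have h1 : (Sum.elim (fun _ => 1) w ∘ Sum.inl : Fin s → ℕ) = fun _ => 1 := rfl
    rw [h1, Multiset.map_const', Finset.card_val, Finset.card_univ, Fintype.card_fin]
  · intro F hF hv
    exact hz F (mem_Vd.2 ⟨hF, fun i => hv (Sum.inr i)⟩) fun l =>
      vanishes_one.1 (hv (Sum.inl l))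

/-- The points of multiplicities `M` impose independent conditions on the polynomials of degree
less than `D`. -/
def Ind (n D : ℕ) (M : Multiset ℕ) : Prop :=
  ∃ s : ℕ, Emp (n + 1) D (Multiset.replicate s 1 + M) ∧ (M.map (cnt n)).sum + s = cnt n D

theorem Ind.collision {n D μ : ℕ} {M M' : Multiset ℕ} (h : Ind n D (μ ::ₘ M)) (h' : Ind n μ M') :
    Ind n D (M' + M) := by
  obtain ⟨s, h1, h2⟩ := h
  obtain ⟨s', h1', h2'⟩ := h'
  refine ⟨s' + s, ?_, ?_⟩
  · have h3 : Multiset.replicate s 1 + μ ::ₘ M = μ ::ₘ (Multiset.replicate s 1 + M) := by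
      rw [Multiset.add_cons]
    rw [h3] at h1
    have h4 := h1.collision h1'
    have h5 : Multiset.replicate s' 1 + M' + (Multiset.replicate s 1 + M) =
        Multiset.replicate (s' + s) 1 + (M' + M) := by
      rw [Multiset.replicate_add, add_add_add_comm]
    rwa [h5] at h4
  · rw [Multiset.map_cons, Multiset.sum_cons] at h2
    rw [Multiset.map_add, Multiset.sum_add]
    omega

theorem Ind.remove {n D b : ℕ} {M : Multiset ℕ} (h : Ind n D (b ::ₘ M)) : Ind n D M := by
  have h1 : Ind n b 0 := by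
    refine ⟨cnt n b, ?_, by simp⟩
    have h2 := emp_of_finrank (E := n + 1) (D := b) (s := cnt n b) (J := Empty) (fun _ => 0)
      (fun _ _ => 0) (by
        refine (Submodule.finrank_mono (inf_le_left :
          Vd b _ _ ≤ restrictSupport ℂ {a : Fin (n + 1) →₀ ℕ | a.degree < b})).trans ?_
        rw [finrank_restrictSupport, ← card_B n b, B, Nat.card_coe_set_eq,
          Set.ncard_eq_toFinset_card _ (Finsupp.finite_of_degree_lt b)])
    simpa using h2
  have h2 := h.collision h1
  rwa [zero_add] at h2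

/-- A multiset as a family. -/
lemma exists_family (M : Multiset ℕ) :
    ∃ (k : ℕ) (m : Fin k → ℕ), (univ : Finset (Fin k)).val.map m = M := by
  induction M using Quotient.inductionOn with
  | h L => exact ⟨L.length, L.get, by rw [Fin.univ_val_map, List.ofFn_get]; rfl⟩

lemma finrank_Vd_le {E D s : ℕ} {J : Type} (m : J → ℕ) (x : Fin s ⊕ J → Fin E → ℂ)
    (hx : AffBot D (Sum.elim (fun _ => 1) m) x) :
    Module.finrank ℂ (Vd D m (fun j => x (Sum.inr j))) ≤ s := by
  let Φ : Vd D m (fun j => x (Sum.inr j)) →ₗ[ℂ] (Fin s → ℂ) :=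
    LinearMap.pi fun l => (aeval (x (Sum.inl l)) :
      MvPolynomial (Fin E) ℂ →ₐ[ℂ] ℂ).toLinearMap ∘ₗ Submodule.subtype _
  have hΦ : Function.Injective Φ := by
    rw [← LinearMap.ker_eq_bot, LinearMap.ker_eq_bot']
    intro F hF
    apply Subtype.ext
    have h0 := mem_Vd.1 F.2
    refine hx _ h0.1 fun i => ?_
    rcases i with l | i
    · have h7 := congrFun hF l
      have h8 : (aeval (x (Sum.inl l)) :
        MvPolynomial (Fin E) ℂ →ₐ[ℂ] ℂ) (F : MvPolynomial (Fin E) ℂ) = 0 := h7
      apply vanishes_one.2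
      rw [← coe_aeval_eq_eval, RingHom.coe_coe]
      exact h8
    · exact h0.2 i
  have h9 := LinearMap.finrank_le_finrank_of_injective hΦ
  rwa [Module.finrank_fin_fun] at h9

lemma finrank_Vd_succ {n D D' : ℕ} (hD : D ≤ D') {J : Type} (m : J → ℕ)
    (x : J → Fin (n + 1) → ℂ) :
    Module.finrank ℂ (Vd D' m x) ≤ Module.finrank ℂ (Vd D m x) + (cnt n D' - cnt n D) := by
  classical
  let Ψ : Vd D' m x →ₗ[ℂ] ((B (n + 1) D' \ B (n + 1) D : Finset (Fin (n + 1) →₀ ℕ)) → ℂ) :=
    LinearMap.pi fun a => lcoeff ℂ (a : Fin (n + 1) →₀ ℕ) ∘ₗ Submodule.subtype _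
  have h1 := LinearMap.finrank_range_add_finrank_ker Ψ
  have h2 : Module.finrank ℂ (LinearMap.range Ψ) ≤ cnt n D' - cnt n D := by
    refine (Submodule.finrank_le _).trans ?_
    rw [Module.finrank_fintype_fun_eq_card, Fintype.card_coe, Finset.card_sdiff_of_subset, card_B,
      card_B]
    intro a ha
    rw [mem_B] at ha ⊢
    omega
  have h3 : Module.finrank ℂ (LinearMap.ker Ψ) ≤ Module.finrank ℂ (Vd D m x) := by
    have h4 : (LinearMap.ker Ψ).map (Submodule.subtype _) ≤ Vd D m x := by
      rintro _ ⟨F, hF, rfl⟩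
      have h5 := mem_Vd.1 F.2
      refine mem_Vd.2 ⟨fun a ha => ?_, h5.2⟩
      by_contra hcon
      apply mem_support_iff.1 ha
      have h6 : a ∈ B (n + 1) D' \ B (n + 1) D := by
        rw [Finset.mem_sdiff, mem_B, mem_B]
        exact ⟨h5.1 a ha, hcon⟩
      exact congrFun (LinearMap.mem_ker.1 hF) ⟨a, h6⟩
    rw [← Submodule.finrank_map_subtype_eq (Vd D' m x) (LinearMap.ker Ψ)]
    exact Submodule.finrank_mono h4
  omega

theorem Ind.degree {n D D' : ℕ} {M : Multiset ℕ} (h : Ind n D M) (hD : D ≤ D') : Ind n D' M := by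
  obtain ⟨k, m, rfl⟩ := exists_family M
  obtain ⟨s, h1, h2⟩ := h
  have h3 : Emp (n + 1) D
      ((univ : Finset (Fin s ⊕ Fin k)).val.map (Sum.elim (fun _ => 1) m)) := by
    rw [← Finset.univ_disjSum_univ, Finset.val_disjSum, Multiset.disjSum, Multiset.map_add,
      Multiset.map_map, Multiset.map_map]
    have h4 : (Sum.elim (fun _ => 1) m ∘ Sum.inl : Fin s → ℕ) = fun _ => 1 := rfl
    have h5 : (Sum.elim (fun _ : Fin s => 1) m ∘ Sum.inr : Fin k → ℕ) = m := rfl
    rw [h4, h5, Multiset.map_const', Finset.card_val, Finset.card_univ, Fintype.card_fin]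
    exact h1
  obtain ⟨x, hx⟩ := h3.fin
  have h4 := finrank_Vd_le m x hx
  have h5 := finrank_Vd_succ hD m (fun j => x (Sum.inr j))
  have hle : cnt n D ≤ cnt n D' := Nat.choose_le_choose _ (by omega)
  refine ⟨s + (cnt n D' - cnt n D), ?_, by omega⟩
  exact emp_of_finrank m (fun j => x (Sum.inr j)) (by omega)

/-- One point. -/
theorem ind_one {n D μ : ℕ} (h : μ ≤ D) : Ind n D {μ} := by
  classical
  have hle : cnt n μ ≤ cnt n D := Nat.choose_le_choose _ (by omega)
  refine ⟨cnt n D - cnt n μ, ?_, by simp; omega⟩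
  have h2 := emp_of_finrank (E := n + 1) (D := D) (s := cnt n D - cnt n μ) (J := Fin 1)
    (fun _ => μ) (fun _ _ => 0) (by
      have h3 : Vd D (fun _ : Fin 1 => μ) (fun _ _ => 0) ≤
          restrictSupport ℂ {a : Fin (n + 1) →₀ ℕ | a ∈ B (n + 1) D \ B (n + 1) μ} := by
        intro F hF
        rw [mem_Vd] at hF
        rw [mem_restrictSupport_iff]
        intro a ha
        show a ∈ B (n + 1) D \ B (n + 1) μ
        rw [Finset.mem_sdiff, mem_B, mem_B]
        refine ⟨hF.1 a ha, fun h4 => mem_support_iff.1 ha ?_⟩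
        have h5 := hF.2 0 a h4
        have h6 : T (fun _ : Fin (n + 1) => (0 : ℂ)) F = F := by
          have h7 : T (fun _ : Fin (n + 1) => (0 : ℂ)) = AlgHom.id ℂ _ := by
            apply MvPolynomial.algHom_ext
            intro i
            simp [T]
          rw [h7]
          rfl
        have h8 : coeff a (T (fun _ : Fin (n + 1) => (0 : ℂ)) F) = 0 := h5
        rwa [h6] at h8
      have hfin : Finite {a : Fin (n + 1) →₀ ℕ | a ∈ B (n + 1) D \ B (n + 1) μ} :=
        Finset.finite_toSet _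
      refine (Submodule.finrank_mono h3).trans ?_
      rw [finrank_restrictSupport, Nat.card_coe_set_eq]
      have h9 : {a : Fin (n + 1) →₀ ℕ | a ∈ B (n + 1) D \ B (n + 1) μ} =
          ((B (n + 1) D \ B (n + 1) μ : Finset _) : Set _) := rfl
      rw [h9, Set.ncard_coe_finset, Finset.card_sdiff_of_subset, card_B, card_B]
      intro a ha
      rw [mem_B] at ha ⊢
      omega)
  simpa using h2

/-- Perfect power numbers of points. -/
theorem ind_powers (n t μ d : ℕ) (ht : 1 ≤ t) (hc : Cs (n + 1) t μ d)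
    (h : t ^ (n + 1) * (μ + n).choose (n + 1) ≤ (d + (n + 1)).choose (n + 1)) :
    Ind n (d + 1) (Multiset.replicate (t ^ (n + 1)) μ) := by
  have e1 : cnt n (d + 1) = (d + (n + 1)).choose (n + 1) := by
    unfold cnt
    congr 1
    omega
  rcases Nat.eq_or_lt_of_le ht with ht1 | ht2
  · subst ht1
    rw [one_pow, one_mul] at h
    rw [one_pow, Multiset.replicate_one]
    apply ind_one
    by_contra hcon
    have h1 : (d + 1 + n).choose (n + 1) < (d + 1 + n + 1).choose (n + 1) := by
      rw [Nat.choose_succ_succ' (d + 1 + n) n]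
      have := Nat.choose_pos (show n ≤ d + 1 + n by omega)
      omega
    have h2 : (d + 1 + n + 1).choose (n + 1) ≤ (μ + n).choose (n + 1) :=
      Nat.choose_le_choose _ (by omega)
    have h3 : d + 1 + n = d + (n + 1) := by omega
    rw [h3] at h1 h2
    omega
  rcases Nat.eq_zero_or_pos μ with hμ | hμ
  · subst hμ
    refine ⟨cnt n (d + 1), ?_, by simp [cnt]⟩
    have h2 := emp_of_finrank (E := n + 1) (D := d + 1) (s := cnt n (d + 1))
      (J := Fin (t ^ (n + 1))) (fun _ => 0)
      (fun _ _ => 0) (by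
        refine (Submodule.finrank_mono (inf_le_left :
          Vd (d + 1) _ _ ≤ restrictSupport ℂ {a : Fin (n + 1) →₀ ℕ | a.degree < d + 1})).trans ?_
        rw [finrank_restrictSupport, ← card_B n (d + 1), B, Nat.card_coe_set_eq,
          Set.ncard_eq_toFinset_card _ (Finsupp.finite_of_degree_lt (d + 1))])
    rwa [Multiset.map_const', Finset.card_val, Finset.card_univ, Fintype.card_fin] at h2
  · obtain ⟨P, hP1, hP2⟩ := ((uniform n t μ d ht2 hμ hc).and forGeneral_zero_coord).exists
    refine ⟨(d + (n + 1)).choose (n + 1) - t ^ (n + 1) * (μ + n).choose (n + 1), ?_, ?_⟩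
    · have h2 := emp_of_finrank (E := n + 1) (D := d + 1)
        (s := (d + (n + 1)).choose (n + 1) - t ^ (n + 1) * (μ + n).choose (n + 1))
        (J := Fin (t ^ (n + 1))) (fun _ => μ)
        (fun i (j : Fin (n + 1)) => (P i 0)⁻¹ * P i j.succ) (by
          rw [← hP1]
          have h3 : Vd (d + 1) (fun _ : Fin (t ^ (n + 1)) => μ)
              (fun i (j : Fin (n + 1)) => (P i 0)⁻¹ * P i j.succ) ≤
              Submodule.map (Elim.dehom n).toLinearMap (forms (n + 2) d (fun _ => μ) P) := by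
            intro f hf
            rw [mem_Vd] at hf
            exact ⟨hom d f, hom_mem _ P hP2 hf.1 hf.2, dehom_hom f⟩
          refine (Submodule.finrank_mono h3).trans ?_
          exact Submodule.finrank_map_le _ _)
      rwa [Multiset.map_const', Finset.card_val, Finset.card_univ, Fintype.card_fin] at h2
    · rw [Multiset.map_replicate, Multiset.sum_replicate, e1, smul_eq_mul]
      unfold cnt
      omega

/-- From `Ind` to general points. -/
theorem general_of_ind {n k d : ℕ} {m : Fin k → ℕ}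
    (h : Ind n (d + 1) ((univ : Finset (Fin k)).val.map m)) :
    ForGeneral (n + 2) k (fun p => Module.finrank ℂ (forms (n + 2) d m p) +
      ∑ i, (m i + n).choose (n + 1) = (d + (n + 1)).choose (n + 1)) := by
  classical
  obtain ⟨s, h1, h2⟩ := h
  have h3 : Emp (n + 1) (d + 1)
      ((univ : Finset (Fin s ⊕ Fin k)).val.map (Sum.elim (fun _ => 1) m)) := by
    rw [← Finset.univ_disjSum_univ, Finset.val_disjSum, Multiset.disjSum, Multiset.map_add,
      Multiset.map_map, Multiset.map_map]
    have h4 : (Sum.elim (fun _ => 1) m ∘ Sum.inl : Fin s → ℕ) = fun _ => 1 := rfl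
    have h5 : (Sum.elim (fun _ : Fin s => 1) m ∘ Sum.inr : Fin k → ℕ) = m := rfl
    rw [h4, h5, Multiset.map_const', Finset.card_val, Finset.card_univ, Fintype.card_fin]
    exact h1
  obtain ⟨x, hx⟩ := h3.fin
  have h6 : Module.finrank ℂ (forms (n + 2) d m (fun i => Fin.cons 1 (x (Sum.inr i)))) ≤ s := by
    let Φ : forms (n + 2) d m (fun i => Fin.cons 1 (x (Sum.inr i))) →ₗ[ℂ] (Fin s → ℂ) :=
      LinearMap.pi fun l => (aeval (Fin.cons 1 (x (Sum.inl l)) : Fin (n + 2) → ℂ) :
        MvPolynomial (Fin (n + 2)) ℂ →ₐ[ℂ] ℂ).toLinearMap ∘ₗ Submodule.subtype _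
    have hΦ : Function.Injective Φ := by
      rw [← LinearMap.ker_eq_bot, LinearMap.ker_eq_bot']
      intro F hF
      apply Subtype.ext
      refine form_zero_of_aff hx F.2.1 fun i => ?_
      rcases i with l | i
      · have h7 := congrFun hF l
        have h8 : (aeval (Fin.cons 1 (x (Sum.inl l)) : Fin (n + 2) → ℂ) :
          MvPolynomial (Fin (n + 2)) ℂ →ₐ[ℂ] ℂ) (F : MvPolynomial (Fin (n + 2)) ℂ) = 0 := h7
        apply vanishes_one.2
        rw [← coe_aeval_eq_eval, RingHom.coe_coe]
        exact h8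
      · exact F.2.2 i
    have h9 := LinearMap.finrank_le_finrank_of_injective hΦ
    rwa [Module.finrank_fin_fun] at h9
  have e1 : cnt n (d + 1) = (d + (n + 1)).choose (n + 1) := by
    unfold cnt
    congr 1
    omega
  have e2 : (((univ : Finset (Fin k)).val.map m).map (cnt n)).sum =
      ∑ i, (m i + n).choose (n + 1) := by
    rw [Multiset.map_map]
    rfl
  rw [e1, e2] at h2
  refine ((forms_semicontinuous (n := n + 2) (d := d) (m := m) _ s h6).and
    (forGeneral_ne_zero (by omega))).mono fun p hp => ?_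
  have h7 : (d + (n + 1)).choose (n + 1) ≤ Module.finrank ℂ (forms (n + 2) d m p) +
    ∑ i, (m i + (n + 1) - 1).choose (n + 1) := finrank_forms_ge (n + 1) d m p hp.2
  have h8 : ∀ i, m i + (n + 1) - 1 = m i + n := fun i => by omega
  simp only [h8] at h7
  have h9 := hp.1
  omega

end Pool.Agent.Y55.Col
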