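import Pool.Agent.Y55.Col.Space

/-!
Many points of `ℙ ^ n` outside a window of degrees, without real powers.
-/

set_option autoImplicit false

namespace Pool.Agent.Y55.Col

open MvPolynomial Finset Pool.Agent.H938R2

theorem manyN_emp {E d : ℕ} {M : Multiset ℕ} (hE : 1 ≤ E) (hM : 3 ^ (E + 1) ≤ M.card)
    (h : M.card ^ E * d ^ (E + 1) < M.sum ^ (E + 1)) : Emp (E + 1) (d + 1) M := by
  obtain ⟨k, m, rfl⟩ := exists_family M
  have hc : ((univ : Finset (Fin k)).val.map m).card = k := by simp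
  have hs : ((univ : Finset (Fin k)).val.map m).sum = ∑ i, m i := rfl
  rw [hc] at hM h
  rw [hs] at h
  refine (many hE hM m d).1 ?_
  set κ : ℝ := (k : ℝ) ^ ((((E + 1 : ℕ) : ℝ) - 1) / ((E + 1 : ℕ) : ℝ)) with hκ
  have hk0 : (0 : ℝ) ≤ k := Nat.cast_nonneg _
  have hE0 : ((E + 1 : ℕ) : ℝ) ≠ 0 := by positivity
  have hκ3 : κ ^ (E + 1) = (k : ℝ) ^ E := by
    rw [hκ, ← Real.rpow_natCast, ← Real.rpow_mul hk0, ← Real.rpow_natCast, div_mul_cancel₀ _ hE0]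
    congr 1
    push_cast
    ring
  have h1 : (κ * d) ^ (E + 1) < (∑ i, (m i : ℝ)) ^ (E + 1) := by
    rw [mul_pow, hκ3]
    have h2 : ((k ^ E * d ^ (E + 1) : ℕ) : ℝ) < (((∑ i, m i) ^ (E + 1) : ℕ) : ℝ) := by
      exact_mod_cast h
    push_cast at h2
    exact h2
  exact lt_of_pow_lt_pow_left₀ (E + 1) (Finset.sum_nonneg fun i _ => Nat.cast_nonneg _) h1

theorem manyN_ind {E d : ℕ} {M : Multiset ℕ} (hE : 1 ≤ E) (hM : 3 ^ (E + 1) ≤ M.card)
    (h : ∀ a ∈ M, M.card * (a + E) ^ (E + 1) ≤ (d - E) ^ (E + 1)) : Ind E (d + 1) M := by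
  obtain ⟨k, m, rfl⟩ := exists_family M
  have hc : ((univ : Finset (Fin k)).val.map m).card = k := by simp
  rw [hc] at hM h
  refine (many hE hM m d).2 fun i => ?_
  have h1 := h (m i) (Multiset.mem_map_of_mem m (mem_univ_val i))
  have hk1 : 0 < k := lt_of_lt_of_le (by positivity) hM
  have hd : E ≤ d := by
    by_contra hcon
    have h2 : d - E = 0 := by omega
    rw [h2, zero_pow (by omega)] at h1
    have h3 : 0 < k * (m i + E) ^ (E + 1) := Nat.mul_pos hk1 (Nat.pow_pos (by omega))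
    omega
  set ρ : ℝ := (k : ℝ) ^ ((1 : ℝ) / ((E + 1 : ℕ) : ℝ)) with hρ
  have hk0 : (0 : ℝ) ≤ k := Nat.cast_nonneg _
  have hE0 : ((E + 1 : ℕ) : ℝ) ≠ 0 := by positivity
  have hρ3 : ρ ^ (E + 1) = k := by
    rw [hρ, ← Real.rpow_natCast, ← Real.rpow_mul hk0, one_div_mul_cancel hE0, Real.rpow_one]
  have h2 : (ρ * ((m i : ℝ) + E)) ^ (E + 1) ≤ ((d - E : ℕ) : ℝ) ^ (E + 1) := by
    rw [mul_pow, hρ3]
    have h3 : ((k * (m i + E) ^ (E + 1) : ℕ) : ℝ) ≤ (((d - E) ^ (E + 1) : ℕ) : ℝ) := by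
      exact_mod_cast h1
    push_cast at h3 ⊢
    exact h3
  have h3 := le_of_pow_le_pow_left₀ (by omega) (Nat.cast_nonneg _) h2
  rw [Nat.cast_sub hd] at h3
  have e : (m i : ℝ) + ((E + 1 : ℕ) : ℝ) - 1 = m i + E := by
    push_cast
    ring
  have e2 : (((E + 1 : ℕ) : ℝ) - 1) = E := by
    push_cast
    ring
  rw [e, e2]
  linarith

end Pool.Agent.Y55.Col
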