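import Pool.Agent.Y55.Col.Key
import Pool.Agent.TH176.FB.J25
import Pool.Agent.Y55.Col.Fam

/-!
Powers of linear forms, `t ^ (n - 1)` of them in `n` variables, and families which contain them.
-/

set_option autoImplicit false

namespace Pool.Agent.Y55.Col

open MvPolynomial

/-- For every degree `k = t m + c` such that `m = k + 1 - d ≥ 1` is the multiplicity of the fat points
dual to the powers and `0 ≤ c < ((n - 2) t - n) / 2`: the multiplicity is at least
`(n - 2) * t ^ (n - 1)`, or there are at most `t ^ (n - 1)` monomials of degree `t + c`. -/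
def CaseP (n t d : ℕ) : Prop :=
  ∀ m c : ℕ, 1 ≤ m → d + m = t * m + c + 1 → 2 * c + n < (n - 2) * t →
    (n - 2) * t ^ (n - 1) ≤ m ∨ (t + c + (n - 1)).choose (n - 1) ≤ t ^ (n - 1)

theorem asc_leP : ∀ (N x y t : ℕ), 1 ≤ t → x ≤ t * y →
    x.ascFactorial N ≤ t ^ N * y.ascFactorial N := by
  intro N
  induction N with
  | zero => intro x y t _ _; simp
  | succ N ih =>
    intro x y t ht hx
    rw [Nat.ascFactorial_succ, Nat.ascFactorial_succ]
    have h1 : N ≤ t * N := Nat.le_mul_of_pos_left N ht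
    calc (x + N) * x.ascFactorial N ≤ (t * (y + N)) * (t ^ N * y.ascFactorial N) :=
        Nat.mul_le_mul (by rw [Nat.mul_add]; omega) (ih x y t ht hx)
      _ = t ^ (N + 1) * ((y + N) * y.ascFactorial N) := by ring

/-- No forms of degree `D < t m`, numerically. -/
theorem lowP {N D t m : ℕ} (ht : 1 ≤ t) (h : D < t * m) :
    (D + N).choose N ≤ t ^ N * (m + N - 1).choose N := by
  have h1 := asc_leP N (D + 1) m t ht h
  rw [Nat.ascFactorial_eq_factorial_mul_choose, Nat.ascFactorial_eq_factorial_mul_choose'] at h1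
  have e : t ^ N * (N.factorial * (m + N - 1).choose N) =
    N.factorial * (t ^ N * (m + N - 1).choose N) := by ring
  rw [e] at h1
  exact Nat.le_of_mul_le_mul_left h1 (Nat.factorial_pos N)

/-- All forms. -/
def An (k D : ℕ) : ℕ := (D + (k + 1)).choose (k + 1)

/-- The conditions. -/
def Bn (k t d D : ℕ) : ℕ := t ^ (k + 1) * (D + 1 - d + k).choose (k + 1)

open Pool.Agent.H938R2 in
/-- The dimension in one degree. -/
theorem dimensionP (k t d D : ℕ) (ht : 2 ≤ t) (h : CaseP (k + 2) t d) :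
    ForGeneral (k + 2) (t ^ (k + 1)) (fun p =>
      Module.finrank ℂ (forms (k + 2) D (fun _ => D + 1 - d) p) = An k D - Bn k t d D) := by
  unfold An Bn
  rcases Nat.eq_zero_or_pos (D + 1 - d) with hm | hm
  · rw [hm, zero_add, Nat.choose_succ_self, mul_zero, Nat.sub_zero]
    refine (forGeneral_ne_zero (by omega)).mono fun p hp => ?_
    apply le_antisymm
    · rw [← Pool.Agent.TH176.FB.card_Mon_choose (k + 1) D,
        ← Pool.Agent.TH206.Fro.dim_thm (k + 2) D ℂ]
      exact Submodule.finrank_mono fun F hF => hF.1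
    · have h1 := finrank_forms_ge (k + 1) D (fun _ : Fin (t ^ (k + 1)) => 0) p hp
      have h2 : ∑ _i : Fin (t ^ (k + 1)), (0 + (k + 1) - 1).choose (k + 1) = 0 := by
        rw [Finset.sum_const, Nat.choose_eq_zero_of_lt (by omega), smul_zero]
      rw [h2, add_zero] at h1
      exact h1
  · refine uniform k t (D + 1 - d) D ht hm ?_
    unfold Cs
    set m := D + 1 - d with hmd
    have e0 : k + 2 - 2 = k := by omega
    have e1 : k + 2 - 1 = k + 1 := by omega
    have e2 : k + 1 - 1 = k := by omega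
    rw [e2]
    rcases Nat.lt_or_ge D (t * m) with h1 | h1
    · exact Or.inr (Or.inl h1)
    · obtain ⟨c, hc⟩ : ∃ c, D = t * m + c := ⟨D - t * m, by omega⟩
      by_cases h2 : 2 * c + (k + 2) < k * t
      · rcases h m c hm (by omega) (by rw [e0]; exact h2) with h3 | h3
        · rw [e0, e1] at h3
          exact Or.inl h3
        · rw [e1] at h3
          refine Or.inr (Or.inr (Or.inr (Or.inl ?_)))
          have e : D + t + (k + 1) - t * m = t + c + (k + 1) := by omega
          rw [e]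
          exact h3
      · refine Or.inr (Or.inr (Or.inl ?_))
        have e : 2 * t * m = 2 * (t * m) := by ring
        rw [e]
        omega

/-- Special linear forms. -/
theorem special_point (k t d : ℕ) (ht : 2 ≤ t) (hd : 1 ≤ d) (h : CaseP (k + 2) t d) :
    ∃ p : Fin (t ^ (k + 1)) → Fin (k + 2) → ℂ, ∀ D ≤ 2 * d - 1,
      Module.finrank ℂ (Pool.Agent.TH176.FB.ik (fun s => Pool.Agent.TH176.FB.lf (p s) ^ d) D) +
        (An k D - Bn k t d D) = (Pool.Agent.TH206.Fro.Mon (k + 2) D).card := by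
  classical
  have hdim := fun D : ℕ => dimensionP k t d D ht h
  choose P hP hP' using hdim
  obtain ⟨a, ha⟩ : ∃ a : Fin (t ^ (k + 1)) × Fin (k + 2) → ℂ,
      MvPolynomial.eval a (∏ D ∈ Finset.range (2 * d), P D) ≠ 0 := by
    by_contra hcon
    push Not at hcon
    exact Finset.prod_ne_zero_iff.2 (fun D _ => hP D)
      (MvPolynomial.funext fun w => by rw [hcon w, map_zero])
  rw [map_prod, Finset.prod_ne_zero_iff] at ha
  refine ⟨fun s i => a (s, i), fun D hD => ?_⟩
  have h1 := Pool.Agent.TH176.FB.emsalem_iarrobino D (fun _ : Fin (t ^ (k + 1)) => d)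
    (fun s i => a (s, i))
  have h2 := hP' D (fun s i => a (s, i)) (ha D (Finset.mem_range.2 (by omega)))
  have h3 : Module.finrank ℂ (Pool.Agent.TH176.FB.fat D
      (fun _ : Fin (t ^ (k + 1)) => D + 1 - d) (fun s i => a (s, i))) =
      An k D - Bn k t d D := h2
  rw [h3, Pool.Agent.TH206.Fro.dim_thm (k + 2) D ℂ] at h1
  exact h1

open Pool.Agent.TH206.Fro Pool.Agent.TH176.FB

theorem card_Mon_An (k D : ℕ) : (Mon (k + 2) D).card = An k D := card_Mon_choose (k + 1) D

/-- The rank is at most the number of products. -/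
theorem rank_le (K : Type) [Field K] (k t d D : ℕ) (f : Fin (t ^ (k + 1)) → MvPolynomial (Fin (k + 2)) K)
    (hf : ∀ i, (f i).IsHomogeneous d) :
    Module.finrank K (ik f D) ≤ min (Bn k t d D) (An k D) := by
  have h1 := finrank_ik_le K (k + 2) (t ^ (k + 1)) D (fun _ => d) f hf
  have hRo := card_Ro_choose (k + 1) (t ^ (k + 1)) D (fun _ => d) (by omega)
  rw [hRo, card_Mon_An] at h1
  have e1 : D + 1 - d + (k + 1 - 1) = D + 1 - d + k := by omega
  rw [e1, Finset.sum_const, Finset.card_univ, Fintype.card_fin, smul_eq_mul] at h1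
  exact h1

/-- The ranks for a family which contains the powers of the linear forms. -/
theorem ranks (k t d : ℕ) (ht : 2 ≤ t) (hd : 1 ≤ d) (h : CaseP (k + 2) t d) (K : Type) [Field K]
    [CharZero K] {τ : Type} (φ : Io (k + 2) (fun _ : Fin (t ^ (k + 1)) => d) → MvPolynomial τ ℤ)
    (hφ : Pows (fun _ : Fin (t ^ (k + 1)) => d) φ) :
    ∃ P : MvPolynomial τ K, P ≠ 0 ∧
      ∀ (x : τ → K) (f : Fin (t ^ (k + 1)) → MvPolynomial (Fin (k + 2)) K),
        (∀ i, (f i).IsHomogeneous d) →
        (∀ s : Io (k + 2) (fun _ : Fin (t ^ (k + 1)) => d), (f s.1).coeff s.2.1 = aeval x (φ s)) →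
        MvPolynomial.eval x P ≠ 0 → ∀ D ≤ 2 * d - 1,
          Module.finrank K (ik f D) = min (Bn k t d D) (An k D) := by
  classical
  obtain ⟨p, hp⟩ := special_point k t d ht hd h
  obtain ⟨t0, ht0⟩ := hφ ℂ p
  have hA := fun D : ℕ => spec_fam K ℂ (k + 2) (t ^ (k + 1)) D (fun _ => d) φ t0
    (fun s => lf (p s) ^ d) (fun i => by
      have h := (lf_hom (p i)).pow d
      rwa [one_mul] at h) ht0
  choose P hP hP' using hA
  refine ⟨∏ D ∈ Finset.range (2 * d), P D, Finset.prod_ne_zero_iff.2 fun D _ => hP D,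
    fun x f hf hc hx D hD => ?_⟩
  rw [map_prod, Finset.prod_ne_zero_iff] at hx
  have h1 := hP' D x f hf hc (hx D (Finset.mem_range.2 (by omega)))
  have h2 := hp D hD
  have h3 := rank_le K k t d D f hf
  rw [card_Mon_An] at h2
  omega

theorem last {k t d : ℕ} (ht : 2 ≤ t) (hd : 1 ≤ d) : An k (2 * d - 1) ≤ Bn k t d (2 * d - 1) := by
  have e : 2 * d - 1 + 1 - d = d := by omega
  have h1 := lowP (N := k + 1) (D := 2 * d - 1) (t := t) (m := d) (by omega) (by
    have : 2 * d ≤ t * d := Nat.mul_le_mul_right _ ht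
    omega)
  have e2 : d + (k + 1) - 1 = d + k := by omega
  rw [e2] at h1
  unfold An Bn
  rw [e]
  exact h1

theorem co_eqP {k t d D : ℕ} (hd : 1 ≤ d) (hD : D ≤ 2 * d - 1) :
    co (k + 2) (fun _ : Fin (t ^ (k + 1)) => d) D = ((An k D : ℕ) : ℤ) - ((Bn k t d D : ℕ) : ℤ) := by
  rw [co_thm (k + 2) (t ^ (k + 1)) (2 * d - 1) (fun _ => d) (by omega)
    (fun _ => by omega) D hD, Finset.sum_const, Finset.card_univ, Fintype.card_fin, nsmul_eq_mul,
    card_Mon_An]
  congr 1
  unfold Bn
  split_ifs with h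
  · rw [card_Mon_choose (k + 1) (D - d)]
    have e : D - d + (k + 1) = D + 1 - d + k := by omega
    rw [e]
    push_cast
    ring
  · have e : D + 1 - d = 0 := by omega
    rw [e, zero_add, Nat.choose_succ_self]
    simp

/-- All degrees. -/
theorem all_degrees {K : Type} [Field K] {k t d : ℕ} (ht : 2 ≤ t) (hd : 1 ≤ d)
    (f : Fin (t ^ (k + 1)) → MvPolynomial (Fin (k + 2)) K)
    (hI : ∀ D ≤ 2 * d - 1, Module.finrank K (ik f D) = min (Bn k t d D) (An k D)) (j : ℕ) :
    hilb f j = fro (k + 2) (fun _ : Fin (t ^ (k + 1)) => d) j := by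
  have hlast : co (k + 2) (fun _ : Fin (t ^ (k + 1)) => d) (2 * d - 1) ≤ 0 := by
    rw [co_eqP hd le_rfl, sub_nonpos]
    exact_mod_cast last ht hd
  unfold fro
  split_ifs with hall
  · have hj : j ≤ 2 * d - 1 := by
      by_contra hcon
      push Not at hcon
      exact absurd (hall (2 * d - 1) hcon.le) (not_lt.2 hlast)
    have h1 := hI j hj
    have h2 := hall j le_rfl
    rw [co_eqP hd hj] at h2 ⊢
    have h3 : Module.finrank K (MvPolynomial.homogeneousSubmodule (Fin (k + 2)) K j) = An k j := by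
      rw [← card_Mon_An]
      exact dim_thm (k + 2) j K
    have h4 : hilb f j = ((An k j : ℕ) : ℤ) - Module.finrank K (ik f j) := by
      rw [← h3]
      rfl
    rw [h4, h1]
    omega
  · push Not at hall
    obtain ⟨i0, hi0, hi⟩ := hall
    obtain ⟨i, hiK, hi, hi2⟩ : ∃ i ≤ j, i ≤ 2 * d - 1 ∧
        co (k + 2) (fun _ : Fin (t ^ (k + 1)) => d) i ≤ 0 := by
      rcases Nat.lt_or_ge i0 (2 * d) with h1 | h1
      · exact ⟨i0, hi0, by omega, hi⟩
      · exact ⟨2 * d - 1, by omega, le_rfl, hlast⟩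
    have h1 := hI i hi
    rw [co_eqP hd hi] at hi2
    refine hilb_zero_of_top f j (ik_top_mono f i j hiK (ik_top_of_card f i ?_))
    rw [card_Mon_An, h1]
    omega

/-- All degrees, comparison with other forms of the same degree. -/
theorem all_degrees_min {K : Type} [Field K] {k t d : ℕ} (ht : 2 ≤ t) (hd : 1 ≤ d)
    (f : Fin (t ^ (k + 1)) → MvPolynomial (Fin (k + 2)) K)
    (hI : ∀ D ≤ 2 * d - 1, Module.finrank K (ik f D) = min (Bn k t d D) (An k D)) (j : ℕ)
    (f' : Fin (t ^ (k + 1)) → MvPolynomial (Fin (k + 2)) K) (hf' : ∀ i, (f' i).IsHomogeneous d) :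
    Module.finrank K (ik f' j) ≤ Module.finrank K (ik f j) := by
  rcases Nat.lt_or_ge j (2 * d) with hj | hj
  · rw [hI j (by omega)]
    exact rank_le K k t d j f' hf'
  · have h1 : homogeneousSubmodule (Fin (k + 2)) K (2 * d - 1) ≤ ik f (2 * d - 1) := by
      refine ik_top_of_card f _ ?_
      rw [card_Mon_An, hI _ le_rfl]
      exact le_min (last ht hd) le_rfl
    have h2 : ik f' j ≤ ik f j :=
      le_trans inf_le_right (ik_top_mono f (2 * d - 1) j (by omega) h1)
    have : FiniteDimensional K (ik f j) :=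
      Submodule.finiteDimensional_of_le (S₂ := homogeneousSubmodule (Fin (k + 2)) K j) inf_le_right
    exact Submodule.finrank_mono h2

/-- The explicit cases. -/
theorem caseP_of {n t d : ℕ} (hn : 2 ≤ n) (ht : 2 ≤ t)
    (h : (n - 2) * t ^ n ≤ d ∨
      (t = 2 ∧ (n ≤ 6 ∨ n = 8)) ∨ (t = 3 ∧ n ≤ 5) ∨ (t ≤ 5 ∧ n ≤ 4) ∨ CaseP n t d) :
    CaseP n t d := by
  obtain ⟨k, rfl⟩ : ∃ k, n = k + 2 := ⟨n - 2, by omega⟩
  have e0 : k + 2 - 2 = k := by omega
  have e1 : k + 2 - 1 = k + 1 := by omega
  rcases h with h | h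
  · intro m c hm hc hw
    left
    rw [e0] at h hw ⊢
    rw [e1]
    have hk : 1 ≤ k := by
      by_contra hcon
      have : k = 0 := by omega
      rw [this] at hw
      omega
    by_contra hcon
    push Not at hcon
    have h1 : t ^ 1 ≤ t ^ (k + 1) := Nat.pow_le_pow_right (by omega) (by omega)
    rw [pow_one] at h1
    have h2 : k * t ≤ k * t ^ (k + 1) := Nat.mul_le_mul_left _ h1
    have h3 : t ^ (k + 2) = t * t ^ (k + 1) := by ring
    rw [h3] at h
    set A := k * t ^ (k + 1) with hA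
    have h4 : k * (t * t ^ (k + 1)) = t * A := by rw [hA]; ring
    rw [h4] at h
    obtain ⟨u, rfl⟩ : ∃ u, t = u + 1 := ⟨t - 1, by omega⟩
    have h5 : u * (m + 1) ≤ u * A := Nat.mul_le_mul_left _ hcon
    have h6 : (u + 1) * m = u * m + m := by ring
    have h7 : (u + 1) * A = u * A + A := by ring
    have h8 : u * (m + 1) = u * m + u := by ring
    omega
  · by_cases h' : CaseP (k + 2) t d
    · exact h'
    · intro m c hm hc hw
      right
      rw [e0] at hw
      rw [e1]
      refine special (k + 1) t c ?_ ht (by omega) (by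
        rw [Nat.add_sub_cancel]
        omega)
      rcases h with h | h | h | h
      · exact Or.inl ⟨h.1, by omega⟩
      · exact Or.inr (Or.inl ⟨h.1, by omega⟩)
      · exact Or.inr (Or.inr ⟨h.1, by omega⟩)
      · exact absurd h h'

end Pool.Agent.Y55.Col
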